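import Pool.Agent.W475.BG.Stm
import Pool.Agent.H24R2.JP.Stir
import Pool.Agent.H345R2.Chi

set_option autoImplicit false

/-!
# BG-ST1: Stirling package for a single gamma factor (helper790, for helper475)

The proofs follow `Pool.Agent.H24R2.JP.Stir`, `Pool.Agent.H986R2.DBN.Stir2` and
`Pool.Agent.W347.BH.Stir`.
-/

namespace Pool.Agent.W790.BG

open Complex Filter Topology Set MeasureTheory
open Pool.Agent.W475.BG

/-- the gamma factor -/
noncomputable def hh (m : ℝ) (z : ℂ) : ℂ := Gammaℝ (1 / 2 + z + m)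

theorem HH_one (m : ℝ) : HH (one m) = hh m := by
  funext z
  show (((1 : ℝ) : ℂ)) ^ (1 / 2 + z) * ∏ j : Fin 1, Gammaℝ (1 / 2 + z + (m : ℂ)) = _
  rw [Fin.prod_univ_one, Complex.ofReal_one, Complex.one_cpow, one_mul]
  rfl

/-- the size of the logarithmic derivative -/
noncomputable def Om (t : ℝ) : ℝ := Real.log t / 2

/-- the logarithmic derivative -/
noncomputable def bb (m t : ℝ) : ℂ := logDeriv (hh m) (I * t)

theorem im_half {m : ℝ} {z : ℂ} : (1 / 2 + z + m).im = z.im := by simp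

theorem re_half {m : ℝ} {z : ℂ} : (1 / 2 + z + m).re = 1 / 2 + z.re + m := by simp

theorem hh_ne {m : ℝ} {z : ℂ} (hz : 0 < z.im) : hh m z ≠ 0 := by
  unfold hh
  exact SG.GamAux.GR_ne (by rw [im_half]; exact hz.ne')

/-- the logarithmic derivative, explicitly -/
noncomputable def ld (m : ℝ) (z : ℂ) : ℂ :=
  -(Real.log Real.pi / 2 : ℝ) + logDeriv Complex.Gamma ((1 / 2 + z + m) / 2) / 2

theorem hh_deriv {m : ℝ} {z : ℂ} (hz : 0 < z.im) : HasDerivAt (hh m) (hh m z * ld m z) z := by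
  have h2 : HasDerivAt (fun z : ℂ => 1 / 2 + z + (m : ℂ)) 1 z :=
    ((hasDerivAt_id z).const_add _).add_const _
  have h3 := HasDerivAt.comp z (SG.GamAux.GR_deriv (s := 1 / 2 + z + m)
    (by rw [im_half]; exact hz.ne')) h2
  rw [mul_one] at h3
  exact h3

theorem ld_eq {m : ℝ} {z : ℂ} (hz : 0 < z.im) : logDeriv (hh m) z = ld m z := by
  rw [logDeriv_apply, (hh_deriv hz).deriv, mul_comm, mul_div_assoc, div_self (hh_ne hz), mul_one]

theorem hh_diff {m : ℝ} {z : ℂ} (hz : 0 < z.im) : DifferentiableAt ℂ (hh m) z :=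
  (hh_deriv hz).differentiableAt

theorem upper_open : IsOpen {z : ℂ | 0 < z.im} := isOpen_lt continuous_const Complex.continuous_im

theorem ld_diff {m : ℝ} {z : ℂ} (hz : 0 < z.im) : DifferentiableAt ℂ (logDeriv (hh m)) z := by
  have h1 : DifferentiableOn ℂ (hh m) {z : ℂ | 0 < z.im} :=
    fun w hw => (hh_diff hw).differentiableWithinAt
  have h2 : AnalyticAt ℂ (hh m) z := h1.analyticAt (upper_open.mem_nhds hz)
  have h3 : AnalyticAt ℂ (deriv (hh m)) z := h2.deriv
  have h4 : AnalyticAt ℂ (deriv (hh m) / hh m) z := h3.div h2 (hh_ne hz)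
  exact h4.differentiableAt

theorem bound1 (m : ℝ) (hm : 0 ≤ m) : ∃ K : ℝ, 1 ≤ K ∧ ∀ (t : ℝ) (z : ℂ), 400 + 2 * m ≤ t →
    ‖z - I * t‖ ≤ t / 4 → 0 < z.im ∧ ‖logDeriv (hh m) z - (Om t : ℂ)‖ ≤ K := by
  obtain ⟨C, hC, h⟩ := SG.GamAux.ld_bound
  have hl2 : 0 < Real.log 2 := Real.log_pos (by norm_num)
  refine ⟨C + Real.log 2, by linarith, ?_⟩
  intro t z ht hz
  have him : |z.im - t| ≤ t / 4 := by
    have := Complex.abs_im_le_norm (z - I * t)
    simp at this
    linarith
  have hre : |z.re| ≤ t / 4 := by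
    have := Complex.abs_re_le_norm (z - I * t)
    simp at this
    linarith
  rw [abs_le] at him hre
  have hpos : 0 < z.im := by linarith
  refine ⟨hpos, ?_⟩
  rw [ld_eq hpos]
  have habs : |(1 / 2 + z + m).im| = z.im := by rw [im_half, abs_of_pos hpos]
  have h1 := h (1 / 2 + z + m) (by rw [habs]; linarith) (by
    rw [habs, re_half, abs_le]
    constructor <;> linarith)
  rw [habs] at h1
  have h2 : |Real.log z.im / 2 - Real.log t / 2| ≤ Real.log 2 := by
    have a1 : Real.log z.im ≤ Real.log (2 * t) := Real.log_le_log hpos (by linarith)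
    have a2 : Real.log t ≤ Real.log (2 * z.im) := Real.log_le_log (by linarith) (by linarith)
    rw [Real.log_mul (by norm_num) (by linarith)] at a1
    rw [Real.log_mul (by norm_num) hpos.ne'] at a2
    rw [abs_le]
    constructor <;> linarith
  have e : ld m z - (Om t : ℂ) =
      ((-(Real.log Real.pi / 2 : ℝ) + logDeriv Complex.Gamma ((1 / 2 + z + m) / 2) / 2) -
        (Real.log z.im / 2 : ℝ)) + ((Real.log z.im / 2 - Real.log t / 2 : ℝ) : ℂ) := by
    unfold ld Om
    push_cast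
    ring
  rw [e]
  refine (norm_add_le _ _).trans ?_
  rw [Complex.norm_real, Real.norm_eq_abs]
  linarith

theorem log_close {s : ℂ} {B : ℝ} (h0 : 0 < s.re) (h2 : s.re + 2 ≤ B) (h1 : 2 * B ≤ s.im) :
    ‖Complex.log (s + 2) - ((Real.log s.im : ℂ) + (Real.pi / 2 : ℂ) * I)‖ ≤ 2 * B / s.im := by
  set u := s.im with hu
  have hB : 0 < B := by linarith
  have hu0 : 0 < u := by linarith
  have hIu : ((u : ℂ) * I) ≠ 0 := by
    simp [hu0.ne']
  have e1 : s + 2 = ((u : ℂ) * I) * (1 + ((s.re + 2 : ℝ) : ℂ) / ((u : ℂ) * I)) := by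
    rw [mul_add, mul_one, mul_div_cancel₀ _ hIu]
    apply Complex.ext
    · simp
    · simp [hu]
  have hn : ‖((s.re + 2 : ℝ) : ℂ) / ((u : ℂ) * I)‖ ≤ B / u := by
    rw [norm_div, norm_mul, norm_I, mul_one, Complex.norm_real, Complex.norm_real,
      Real.norm_of_nonneg (by linarith), Real.norm_of_nonneg hu0.le]
    gcongr
  have hn2 : ‖((s.re + 2 : ℝ) : ℂ) / ((u : ℂ) * I)‖ ≤ 1 / 2 := by
    refine hn.trans ?_
    rw [div_le_iff₀ hu0]
    linarith
  set w := ((s.re + 2 : ℝ) : ℂ) / ((u : ℂ) * I) with hw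
  have e2 : Complex.log ((u : ℂ) * I) = (Real.log u : ℂ) + (Real.pi / 2 : ℂ) * I := by
    rw [Complex.log_ofReal_mul hu0 (by simp), Complex.log_I]
  have hre : 0 < (1 + w).re := by
    have h5 : -‖w‖ ≤ w.re := by
      have := abs_re_le_norm w
      rw [abs_le] at this
      exact this.1
    rw [add_re, one_re]
    linarith
  have him : (1 + w).im ≤ 0 := by
    have : w = ((-(s.re + 2) / u : ℝ) : ℂ) * I := by
      rw [hw]
      have hIne : (I : ℂ) ≠ 0 := I_ne_zero
      have hune : (u : ℂ) ≠ 0 := by exact_mod_cast hu0.ne'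
      push_cast
      field_simp
      rw [Complex.I_sq]
      ring
    rw [this]
    simp only [add_im, one_im, zero_add, mul_I_im, ofReal_re]
    apply div_nonpos_of_nonpos_of_nonneg
    · linarith
    · exact hu0.le
  have e3 : Complex.log (s + 2) = Complex.log ((u : ℂ) * I) + Complex.log (1 + w) := by
    conv_lhs => rw [e1]
    apply Complex.log_mul hIu (by intro h; rw [h] at hre; simp at hre)
    have a1 : ((u : ℂ) * I).arg = Real.pi / 2 := by
      rw [Complex.arg_real_mul _ hu0, Complex.arg_I]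
    have a2 := abs_arg_lt_pi_div_two_iff.mpr (Or.inl hre)
    rw [abs_lt] at a2
    rw [a1]
    constructor
    · linarith [Real.pi_pos]
    · linarith [Real.pi_pos]
  rw [e3, e2, add_sub_cancel_left]
  refine (Complex.norm_log_one_add_half_le_self hn2).trans ?_
  calc 3 / 2 * ‖w‖ ≤ 3 / 2 * (B / u) := by gcongr
    _ ≤ 2 * B / u := by
      rw [mul_div_assoc]
      have : 0 ≤ B / u := by positivity
      linarith

theorem be_close (m : ℝ) (hm : 0 ≤ m) (t : ℝ) (ht : 4 * (m + 4) ≤ t) :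
    ‖bb m t - ((Real.log (t / (2 * Real.pi)) / 2 : ℝ) + I * (Real.pi / 4 : ℝ))‖ ≤
      (2 * m + 12) / t := by
  have ht0 : 0 < t := by linarith
  have hpi := Real.pi_pos
  have him : 0 < (I * (t : ℂ)).im := by simp; exact ht0
  set s : ℂ := (1 / 2 + I * t + m) / 2 with hs
  have hre : s.re = 1 / 4 + m / 2 := by rw [hs]; simp; ring
  have hsi : s.im = t / 2 := by rw [hs]; simp
  have hs0 : 0 < s.re := by rw [hre]; positivity
  have h1 := log_close (s := s) (B := m + 4) hs0 (by rw [hre]; linarith) (by rw [hsi]; linarith)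
  have h2 := H345.Chi.tsum_er_le (s := s) hs0 (by rw [hsi]; linarith)
  have h3 := H370.DG.logDeriv_Gamma' (s := s) hs0
  have h4 : ‖1 / s‖ ≤ 2 / t := by
    rw [norm_div, norm_one]
    have h5 : t / 2 ≤ ‖s‖ := by
      have := Complex.abs_im_le_norm s
      rwa [hsi, abs_of_pos (by positivity)] at this
    rw [div_le_div_iff₀ (by linarith) ht0]
    linarith
  have h5 : ‖1 / (s + 1)‖ ≤ 2 / t := by
    rw [norm_div, norm_one]
    have h5 : t / 2 ≤ ‖s + 1‖ := by
      have := Complex.abs_im_le_norm (s + 1)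
      rwa [Complex.add_im, Complex.one_im, add_zero, hsi, abs_of_pos (by positivity)] at this
    rw [div_le_div_iff₀ (by linarith) ht0]
    linarith
  unfold bb
  rw [ld_eq him]
  unfold ld
  rw [← hs, h3]
  have hlog : Real.log (t / (2 * Real.pi)) = Real.log s.im - Real.log Real.pi := by
    rw [hsi, ← Real.log_div (by positivity) (by positivity)]
    congr 1
    field_simp
  rw [hlog]
  have e : (-((Real.log Real.pi / 2 : ℝ) : ℂ) +
      (Complex.log (s + 2) - 1 / s - 1 / (s + 1) + ∑' n, H370.DG.er n s) / 2) -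
      ((((Real.log s.im - Real.log Real.pi) / 2 : ℝ) : ℂ) + I * ((Real.pi / 4 : ℝ) : ℂ)) =
      ((Complex.log (s + 2) - ((Real.log s.im : ℂ) + (Real.pi / 2 : ℂ) * I)) - 1 / s -
        1 / (s + 1) + ∑' n, H370.DG.er n s) / 2 := by
    push_cast
    ring
  rw [e]
  have hb : ‖(Complex.log (s + 2) - ((Real.log s.im : ℂ) + (Real.pi / 2 : ℂ) * I)) - 1 / s -
        1 / (s + 1) + ∑' n, H370.DG.er n s‖ ≤ (4 * m + 24) / t := by
    refine (norm_add_le _ _).trans ?_
    refine (add_le_add (norm_sub_le _ _) le_rfl).trans ?_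
    refine (add_le_add (add_le_add (norm_sub_le _ _) le_rfl) le_rfl).trans ?_
    rw [hsi] at h1 h2
    rw [hsi]
    have e9 : 2 * (m + 4) / (t / 2) = (4 * m + 16) / t := by field_simp; ring
    have e2 : 2 / (t / 2) = 4 / t := by field_simp; norm_num
    rw [e9] at h1
    rw [e2] at h2
    have : (4 * m + 24) / t = (4 * m + 16) / t + 2 / t + 2 / t + 4 / t := by ring
    rw [this]
    linarith
  rw [norm_div, Complex.norm_ofNat, div_le_iff₀ (by norm_num)]
  refine hb.trans (le_of_eq ?_)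
  ring

theorem bound3 (m : ℝ) (hm : 0 ≤ m) : ∃ K : ℝ, 1 ≤ K ∧ ∀ (t : ℝ), 400 + 2 * m ≤ t →
    ‖bb m t - (Om t : ℂ)‖ ≤ K ∧ ∀ u : ℂ, ‖u‖ ≤ t / 8 → 0 < (I * t + u).im ∧
      ‖logDeriv (hh m) (I * t + u) - (Om t : ℂ)‖ ≤ K ∧
      ‖logDeriv (hh m) (I * t + u) - bb m t‖ ≤ 16 * K / t * ‖u‖ := by
  obtain ⟨K, hK, h⟩ := bound1 m hm
  refine ⟨K, hK, ?_⟩
  intro t ht
  have ht0 : 0 < t := by linarith
  refine ⟨(h t (I * t) ht (by simp; linarith)).2, ?_⟩
  intro u hu
  have h0 := h t (I * t + u) ht (by simp; linarith)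
  refine ⟨h0.1, h0.2, ?_⟩
  have hcv : Convex ℝ (Metric.ball (I * t : ℂ) (t / 8 + 1)) := convex_ball _ _
  have hd : ∀ z ∈ Metric.ball (I * t : ℂ) (t / 8 + 1), DifferentiableAt ℂ (logDeriv (hh m)) z := by
    intro z hz
    apply ld_diff
    refine (h t z ht ?_).1
    rw [Metric.mem_ball, dist_eq_norm] at hz
    linarith
  have hdb : ∀ z ∈ Metric.ball (I * t : ℂ) (t / 8 + 1), ‖deriv (logDeriv (hh m)) z‖ ≤ 8 * K / (t - 8) * 1 := by
    intro z hz
    rw [Metric.mem_ball, dist_eq_norm] at hz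
    have hr : 0 < t / 8 - 1 := by linarith
    have e0 : deriv (logDeriv (hh m)) z = deriv (fun w => logDeriv (hh m) w - (Om t : ℂ)) z := by
      rw [deriv_sub_const]
    rw [e0]
    have := Complex.norm_deriv_le_of_forall_mem_sphere_norm_le (f := fun w => logDeriv (hh m) w - (Om t : ℂ))
      (c := z) (C := K) hr ?_ ?_
    · refine this.trans (le_of_eq ?_)
      field_simp
    · constructor
      · intro w hw
        rw [Metric.mem_ball, dist_eq_norm] at hw
        have : ‖w - I * t‖ ≤ t / 4 := by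
          calc ‖w - I * t‖ = ‖(w - z) + (z - I * t)‖ := by ring_nf
            _ ≤ ‖w - z‖ + ‖z - I * t‖ := norm_add_le _ _
            _ ≤ t / 4 := by linarith
        exact ((ld_diff (h t w ht this).1).sub_const _).differentiableWithinAt
      · rw [closure_ball _ hr.ne']
        intro w hw
        rw [Metric.mem_closedBall, dist_eq_norm] at hw
        have : ‖w - I * t‖ ≤ t / 4 := by
          calc ‖w - I * t‖ = ‖(w - z) + (z - I * t)‖ := by ring_nf
            _ ≤ ‖w - z‖ + ‖z - I * t‖ := norm_add_le _ _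
            _ ≤ t / 4 := by linarith
        exact ((ld_diff (h t w ht this).1).sub_const _).continuousAt.continuousWithinAt
    · intro w hw
      rw [mem_sphere_iff_norm] at hw
      have : ‖w - I * t‖ ≤ t / 4 := by
        calc ‖w - I * t‖ = ‖(w - z) + (z - I * t)‖ := by ring_nf
          _ ≤ ‖w - z‖ + ‖z - I * t‖ := norm_add_le _ _
          _ ≤ t / 4 := by linarith
      exact (h t w ht this).2
  have hx : (I * t : ℂ) ∈ Metric.ball (I * t : ℂ) (t / 8 + 1) := Metric.mem_ball_self (by linarith)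
  have hy : (I * t + u : ℂ) ∈ Metric.ball (I * t : ℂ) (t / 8 + 1) := by
    rw [Metric.mem_ball, dist_eq_norm]
    simp
    linarith
  have := hcv.norm_image_sub_le_of_norm_deriv_le hd hdb hx hy
  unfold bb
  refine this.trans ?_
  rw [mul_one, add_sub_cancel_left]
  have h8 : 0 < t - 8 := by linarith
  apply mul_le_mul_of_nonneg_right _ (norm_nonneg _)
  rw [div_le_div_iff₀ h8 ht0]
  nlinarith

/-- derivative along a segment -/
theorem seg_deriv (m t : ℝ) (u b : ℂ) (x : ℝ) (him : 0 < (I * t + x * u).im) :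
    HasDerivAt (fun x : ℝ => hh m (I * t + x * u) * cexp (-(x * (b * u))))
      (hh m (I * t + x * u) * cexp (-(x * (b * u))) *
        ((logDeriv (hh m) (I * t + x * u) - b) * u)) x := by
  have hlin : HasDerivAt (fun x : ℝ => I * t + (x : ℂ) * u) u x := by
    have h0 : HasDerivAt (fun x : ℝ => (x : ℂ)) 1 x := Complex.ofRealCLM.hasDerivAt
    simpa using (h0.mul_const u).const_add (I * t)
  have h1 : HasDerivAt (fun x : ℝ => hh m (I * t + (x : ℂ) * u))
      (hh m (I * t + x * u) * ld m (I * t + x * u) * u) x :=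
    HasDerivAt.comp (h₂ := hh m) (h := fun x : ℝ => I * t + (x : ℂ) * u) x
      (hh_deriv (m := m) him) hlin
  have h2 : HasDerivAt (fun x : ℝ => cexp (-((x : ℂ) * (b * u))))
      (cexp (-((x : ℂ) * (b * u))) * (-(b * u))) x := by
    have h0 : HasDerivAt (fun x : ℝ => (x : ℂ)) 1 x := Complex.ofRealCLM.hasDerivAt
    have h0' : HasDerivAt (fun x : ℝ => -((x : ℂ) * (b * u))) (-(1 * (b * u))) x :=
      (h0.mul_const (b * u)).fun_neg
    rw [one_mul] at h0'
    exact h0'.cexp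
  refine (h1.mul h2).congr_deriv ?_
  rw [← ld_eq him]
  ring

theorem norm_xu {x : ℝ} (hx : x ∈ Icc (0:ℝ) 1) {u : ℂ} {r : ℝ} (hu : ‖u‖ ≤ r) :
    ‖(x : ℂ) * u‖ ≤ r := by
  rw [norm_mul, Complex.norm_real, Real.norm_eq_abs, abs_of_nonneg hx.1]
  nlinarith [hx.2, norm_nonneg u]


/-- the bounds, without the lower bound -/
theorem stirA (m : ℝ) (hm : 0 ≤ m) : ∃ K : ℝ, 1 ≤ K ∧ ∀ t : ℝ, 400 + 2 * m ≤ t →
  (∀ u : ℂ, ‖u‖ ≤ t / 8 → 0 < (I * t + u).im ∧ DifferentiableAt ℂ (hh m) (I * t + u) ∧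
    ‖hh m (I * t + u)‖ ≤ ‖hh m (I * t)‖ * Real.exp (Real.log t / 2 * u.re + K * ‖u‖)) ∧
  (∀ u : ℂ, K * ‖u‖ ^ 2 ≤ t →
    ‖hh m (I * t + u) - hh m (I * t) * cexp (bb m t * u)‖ ≤
      K * ‖u‖ ^ 2 / t * ‖hh m (I * t) * cexp (bb m t * u)‖) := by
  obtain ⟨K0, hK0, h⟩ := bound3 m hm
  refine ⟨32 * K0, by linarith, ?_⟩
  intro t ht
  have ht0 : 0 < t := by linarith
  obtain ⟨hb, hu⟩ := h t ht
  have hne : hh m (I * t) ≠ 0 := hh_ne (by simp; linarith)
  refine ⟨?_, ?_⟩
  · intro u hut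
    obtain ⟨h1, -, -⟩ := hu u hut
    refine ⟨h1, hh_diff h1, ?_⟩
    rcases eq_or_ne u 0 with rfl | hu0
    · simp
    have hun : 0 < ‖u‖ := norm_pos_iff.2 hu0
    have key := SG.GamAux.gron (fun x : ℝ => hh m (I * t + x * u) * cexp (-(x * ((Om t : ℂ) * u))))
      (fun x : ℝ => hh m (I * t + x * u) * cexp (-(x * ((Om t : ℂ) * u))) *
        ((logDeriv (hh m) (I * t + x * u) - (Om t : ℂ)) * u)) (K0 * ‖u‖) (by positivity) ?_ ?_
    · obtain ⟨key, -⟩ := key
      simp only [Complex.ofReal_one, one_mul, Complex.ofReal_zero, zero_mul, add_zero, neg_zero,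
        Complex.exp_zero, mul_one] at key
      rw [norm_mul, Complex.norm_exp] at key
      have hre : (-((Om t : ℂ) * u)).re = -(Om t * u.re) := by
        rw [Complex.neg_re, Complex.re_ofReal_mul]
      rw [hre, Real.exp_neg, ← div_eq_mul_inv, div_le_iff₀ (Real.exp_pos _)] at key
      refine key.trans ?_
      calc Real.exp (K0 * ‖u‖) * ‖hh m (I * t)‖ * Real.exp (Om t * u.re)
          = ‖hh m (I * t)‖ * Real.exp (Om t * u.re + K0 * ‖u‖) := by rw [Real.exp_add]; ring
        _ ≤ ‖hh m (I * t)‖ * Real.exp (Om t * u.re + (32 * K0) * ‖u‖) := by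
            gcongr
            nlinarith
    · intro x hx
      exact seg_deriv m t u (Om t : ℂ) x (hu (x * u) (norm_xu hx hut)).1
    · intro x hx
      obtain ⟨-, hb2, -⟩ := hu (x * u) (norm_xu hx hut)
      rw [norm_mul _ ((logDeriv (hh m) (I * t + x * u) - (Om t : ℂ)) * u), norm_mul (_ - _) u, mul_comm]
      gcongr
  · intro u hut
    rcases eq_or_ne u 0 with rfl | hu0
    · simp
    have hun : 0 < ‖u‖ := norm_pos_iff.2 hu0
    have hut2 : 32 * K0 * ‖u‖ ^ 2 ≤ t := by
      exact hut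
    have hut8 : ‖u‖ ≤ t / 8 := by
      by_contra hc
      push Not at hc
      nlinarith
    set κ : ℝ := 16 * K0 / t * ‖u‖ ^ 2 with hκ
    have hκ0 : 0 < κ := by positivity
    have key := SG.GamAux.gron (fun x : ℝ => hh m (I * t + x * u) * cexp (-(x * (bb m t * u))))
      (fun x : ℝ => hh m (I * t + x * u) * cexp (-(x * (bb m t * u))) *
        ((logDeriv (hh m) (I * t + x * u) - bb m t) * u)) κ hκ0 ?_ ?_
    · obtain ⟨-, key⟩ := key
      simp only [Complex.ofReal_one, one_mul, Complex.ofReal_zero, zero_mul, add_zero, neg_zero,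
        Complex.exp_zero, mul_one] at key
      have hκ1 : κ ≤ 1 := by
        rw [hκ, div_mul_eq_mul_div, div_le_one ht0]
        nlinarith
      have he : Real.exp κ - 1 ≤ 2 * κ := by
        have := Real.abs_exp_sub_one_le (x := κ) (by rw [abs_of_pos hκ0]; exact hκ1)
        rw [abs_of_pos hκ0] at this
        exact (le_abs_self _).trans this
      have e1 : hh m (I * t + u) - hh m (I * t) * cexp (bb m t * u) =
          (hh m (I * t + u) * cexp (-(bb m t * u)) - hh m (I * t)) * cexp (bb m t * u) := by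
        rw [sub_mul, mul_assoc, ← Complex.exp_add]
        simp
      rw [e1, norm_mul, norm_mul]
      calc ‖hh m (I * t + u) * cexp (-(bb m t * u)) - hh m (I * t)‖ * ‖cexp (bb m t * u)‖
          ≤ ((Real.exp κ - 1) * ‖hh m (I * t)‖) * ‖cexp (bb m t * u)‖ := by gcongr
        _ ≤ ((2 * κ) * ‖hh m (I * t)‖) * ‖cexp (bb m t * u)‖ := by gcongr
        _ = 32 * K0 * ‖u‖ ^ 2 / t * (‖hh m (I * t)‖ * ‖cexp (bb m t * u)‖) := by rw [hκ]; ring
    · intro x hx
      exact seg_deriv m t u (bb m t) x (hu (x * u) (norm_xu hx hut8)).1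
    · intro x hx
      obtain ⟨-, -, hb2⟩ := hu (x * u) (norm_xu hx hut8)
      have hxu := norm_xu hx (le_refl ‖u‖)
      rw [norm_mul _ ((logDeriv (hh m) (I * t + x * u) - bb m t) * u), norm_mul (_ - _) u, mul_comm]
      have : ‖logDeriv (hh m) (I * t + x * u) - bb m t‖ * ‖u‖ ≤ κ := by
        calc ‖logDeriv (hh m) (I * t + x * u) - bb m t‖ * ‖u‖ ≤ 16 * K0 / t * ‖(x : ℂ) * u‖ * ‖u‖ := by
              gcongr
          _ ≤ 16 * K0 / t * ‖u‖ * ‖u‖ := by gcongr
          _ = κ := by rw [hκ]; ring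
      gcongr


theorem norm_Iy (y : ℝ) : ‖I * (y : ℂ)‖ = |y| := by
  rw [norm_mul, Complex.norm_I, one_mul, Complex.norm_real, Real.norm_eq_abs]

/-- vertical steps -/
theorem stepV {m K : ℝ} (h : ∀ t : ℝ, 400 + 2 * m ≤ t → ∀ u : ℂ, ‖u‖ ≤ t / 8 →
    ‖hh m (I * t + u)‖ ≤ ‖hh m (I * t)‖ * Real.exp (Real.log t / 2 * u.re + K * ‖u‖))
    (t y : ℝ) (ht : 400 + 2 * m ≤ t) (hy : |y| ≤ t / 8) :
    ‖hh m (I * ((t + y : ℝ) : ℂ))‖ ≤ ‖hh m (I * t)‖ * Real.exp (K * |y|) := by
  have h1 := h t ht (I * y) (by rw [norm_Iy]; exact hy)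
  have e1 : I * (t : ℂ) + I * (y : ℂ) = I * ((t + y : ℝ) : ℂ) := by push_cast; ring
  have e2 : (I * (y : ℂ)).re = 0 := by simp
  rw [e1, e2, norm_Iy, mul_zero, zero_add] at h1
  exact h1

/-- the lower bound -/
theorem low {m K : ℝ} (hm : 0 ≤ m) (hK : 1 ≤ K) (h : ∀ t : ℝ, 400 + 2 * m ≤ t → ∀ u : ℂ, ‖u‖ ≤ t / 8 →
    ‖hh m (I * t + u)‖ ≤ ‖hh m (I * t)‖ * Real.exp (Real.log t / 2 * u.re + K * ‖u‖)) :
    ∃ K' : ℝ, 1 ≤ K' ∧ ∀ t : ℝ, 400 + 2 * m ≤ t → Real.exp (-(K' * t)) ≤ ‖hh m (I * t)‖ := by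
  set T : ℝ := 400 + 2 * m with hT
  have hcont : ContinuousOn (fun t : ℝ => ‖hh m (I * t)‖) (Icc T (T + 1)) := by
    intro t ht
    have h1 : 0 < (I * (t : ℂ)).im := by
      simp
      linarith [ht.1]
    have h2 : ContinuousAt (hh m) (I * (t : ℂ)) := (hh_diff h1).continuousAt
    have h3 : ContinuousAt (fun t : ℝ => I * (t : ℂ)) t := by fun_prop
    exact (ContinuousAt.norm (ContinuousAt.comp (f := fun t : ℝ => I * (t : ℂ)) h2
      h3)).continuousWithinAt
  obtain ⟨t1, ht1, hmin⟩ := isCompact_Icc.exists_isMinOn (nonempty_Icc.2 (by linarith)) hcont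
  set c : ℝ := ‖hh m (I * t1)‖ with hc
  have hc0 : 0 < c := norm_pos_iff.2 (hh_ne (by simp; linarith [ht1.1]))
  have key : ∀ n : ℕ, ∀ t : ℝ, T + n ≤ t → t ≤ T + n + 1 →
      c * Real.exp (-(K * n)) ≤ ‖hh m (I * t)‖ := by
    intro n
    induction n with
    | zero =>
      intro t h1 h2
      simp only [Nat.cast_zero, add_zero] at h1 h2
      have := hmin ⟨h1, h2⟩
      simpa using this
    | succ n ih =>
      intro t h1 h2
      push_cast at h1 h2
      have hn : (0 : ℝ) ≤ n := Nat.cast_nonneg n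
      have h3 := ih (t - 1) (by linarith) (by linarith)
      have h4 := stepV h t (-1) (by linarith) (by
        rw [abs_neg, abs_one]
        linarith)
      rw [abs_neg, abs_one, mul_one, ← sub_eq_add_neg] at h4
      have h5 : Real.exp (-(K * ((n : ℝ) + 1))) = Real.exp (-(K * n)) * Real.exp (-K) := by
        rw [← Real.exp_add]
        congr 1
        ring
      push_cast
      rw [h5, ← mul_assoc]
      calc c * Real.exp (-(K * n)) * Real.exp (-K)
          ≤ (‖hh m (I * t)‖ * Real.exp K) * Real.exp (-K) :=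
            mul_le_mul_of_nonneg_right (h3.trans h4) (Real.exp_pos _).le
        _ = ‖hh m (I * t)‖ := by
            rw [mul_assoc, ← Real.exp_add, add_neg_cancel, Real.exp_zero, mul_one]
  refine ⟨K + |Real.log c|, by linarith [abs_nonneg (Real.log c)], fun t ht => ?_⟩
  have h1 := key ⌊t - T⌋₊ t (by
      have := Nat.floor_le (show 0 ≤ t - T by linarith)
      linarith) (by
      have := Nat.lt_floor_add_one (t - T)
      linarith)
  refine le_trans ?_ h1
  have h2 := Nat.floor_le (show 0 ≤ t - T by linarith)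
  have e1 : c = Real.exp (Real.log c) := (Real.exp_log hc0).symm
  have e2 : Real.exp (-((K + |Real.log c|) * t)) ≤
      Real.exp (Real.log c + -(K * (⌊t - T⌋₊ : ℝ))) := by
    apply Real.exp_le_exp.2
    have h3 := neg_abs_le (Real.log c)
    have h4 := abs_nonneg (Real.log c)
    have h5 : K * (⌊t - T⌋₊ : ℝ) ≤ K * t := by
      apply mul_le_mul_of_nonneg_left _ (by linarith)
      linarith
    have h6 : |Real.log c| ≤ |Real.log c| * t := by
      nlinarith
    nlinarith
  rw [Real.exp_add, ← e1] at e2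
  exact e2

theorem st1 (m : ℝ) (hm : 0 ≤ m) : S_STIR (one m) := by
  obtain ⟨K, hK, h⟩ := stirA m hm
  have hV : ∀ t : ℝ, 400 + 2 * m ≤ t → ∀ u : ℂ, ‖u‖ ≤ t / 8 →
      ‖hh m (I * t + u)‖ ≤ ‖hh m (I * t)‖ * Real.exp (Real.log t / 2 * u.re + K * ‖u‖) :=
    fun t ht u hu => ((h t ht).1 u hu).2.2
  obtain ⟨K', hK', hlow⟩ := low hm hK hV
  refine ⟨K + K' + (2 * m + 12), 1000 + 8 * m, by linarith, by linarith, fun t ht => ?_⟩
  have ht1 : 400 + 2 * m ≤ t := by linarith
  have ht0 : 0 < t := by linarith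
  obtain ⟨c4, c5⟩ := h t ht1
  have hbe : be (one m) t = bb m t := by
    unfold be bb
    rw [HH_one]
  have hd : (((one m).d : ℕ) : ℝ) = 1 := by simp [one]
  have hQ : Real.log (one m).Q = 0 := by simp [one]
  rw [HH_one, hbe, hd, hQ]
  refine ⟨hh_ne (by simp; linarith), ?_, ?_, ?_, ?_, ?_⟩
  · have h1 := be_close m hm t (by linarith)
    rw [one_mul, one_mul, add_zero]
    refine h1.trans (div_le_div_of_nonneg_right ?_ ht0.le)
    linarith
  · refine le_trans (Real.exp_le_exp.2 ?_) (hlow t ht1)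
    nlinarith
  · intro u hu
    obtain ⟨d1, d2, d3⟩ := c4 u hu
    refine ⟨d1, d2, d3.trans ?_⟩
    refine mul_le_mul_of_nonneg_left (Real.exp_le_exp.2 ?_) (norm_nonneg _)
    nlinarith [norm_nonneg u]
  · intro u hu
    have hsq := sq_nonneg ‖u‖
    refine (c5 u ?_).trans ?_
    · nlinarith
    · refine mul_le_mul_of_nonneg_right ?_ (norm_nonneg _)
      rw [div_le_div_iff_of_pos_right ht0]
      nlinarith
  · intro y hy
    have hy2 := abs_le.1 hy
    have hyn := abs_nonneg y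
    constructor
    · have h1 := stepV hV (t + y) (-y) (by linarith) (by rw [abs_neg]; linarith)
      rw [abs_neg, add_neg_cancel_right] at h1
      refine h1.trans (mul_le_mul_of_nonneg_left (Real.exp_le_exp.2 ?_) (norm_nonneg _))
      nlinarith
    · have h1 := stepV hV t y ht1 (by linarith)
      refine h1.trans (mul_le_mul_of_nonneg_left (Real.exp_le_exp.2 ?_) (norm_nonneg _))
      nlinarith

end Pool.Agent.W790.BG
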